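import Pool.Agent.H83.UE.Targets4

/-!
# Row CNT of udb_modules: counting the points over a generic point
-/

set_option autoImplicit false

open Polynomial MeasureTheory Filter Topology Set

namespace Pool.Agent.H1.UDB

open Pool.Agent.H83.UE

section key

variable {k : ℕ} {K : Type} [Field K] (J : Finset (Fin k)) (i : Fin k)

/-- polynomials in the variables `insert i J` as polynomials in one variable -/
noncomputable def cntTh : MvPolynomial (Fin k) K →ₐ[K] (MvPolynomial {j // j ∈ J} K)[X] :=
  MvPolynomial.aeval fun l => if h : l ∈ J then C (MvPolynomial.X ⟨l, h⟩) else if l = i then X else 0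

/-- the left inverse -/
noncomputable def cntEt : (MvPolynomial {j // j ∈ J} K)[X] →+* MvPolynomial (Fin k) K :=
  Polynomial.eval₂RingHom
    (MvPolynomial.aeval (R := K) (fun j : {j // j ∈ J} => (MvPolynomial.X j.1 : MvPolynomial (Fin k) K))
      : MvPolynomial {j // j ∈ J} K →ₐ[K] MvPolynomial (Fin k) K).toRingHom
    (MvPolynomial.X i)

theorem cntEt_th (h : MvPolynomial (Fin k) K) (hv : h.vars ⊆ insert i J) :
    cntEt J i (cntTh J i h) = h := by
  classical
  have h1 : (cntEt J i).comp (cntTh (K := K) J i).toRingHom =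
      (MvPolynomial.aeval (R := K) fun l : Fin k =>
        if l ∈ ((insert i J : Finset (Fin k)) : Set (Fin k)) then
          (MvPolynomial.X l : MvPolynomial (Fin k) K) else 0).toRingHom := by
    apply MvPolynomial.ringHom_ext
    · intro r
      simp [cntEt, cntTh]
    · intro l
      by_cases hl : l ∈ J
      · simp [cntEt, cntTh, hl]
      · by_cases hi : l = i
        · subst hi
          simp [cntEt, cntTh, hl]
        · simp [cntEt, cntTh, hl, hi]
  have h2 := congrArg (fun f : MvPolynomial (Fin k) K →+* MvPolynomial (Fin k) K => f h) h1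
  have h3 := MvPolynomial.aeval_ite_mem_eq_self h (s := ((insert i J : Finset (Fin k)) : Set (Fin k)))
    (by exact_mod_cast hv)
  exact h2.trans h3

theorem cntTh_ne (h : MvPolynomial (Fin k) K) (hv : h.vars ⊆ insert i J) (h0 : h ≠ 0) :
    cntTh J i h ≠ 0 := by
  intro h1
  have h2 := cntEt_th J i h hv
  rw [h1, map_zero] at h2
  exact h0 h2.symm

theorem cntTh_eval {L : Type} [Field L] [Algebra K L] (h : MvPolynomial (Fin k) K)
    (hv : h.vars ⊆ insert i J) (z : Fin k → L) :
    Polynomial.eval₂ (MvPolynomial.aeval (R := K) (fun j : {j // j ∈ J} => z j.1)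
      : MvPolynomial {j // j ∈ J} K →ₐ[K] L).toRingHom (z i) (cntTh J i h) =
      MvPolynomial.aeval z h := by
  classical
  have h1 : (Polynomial.eval₂RingHom (MvPolynomial.aeval (R := K) (fun j : {j // j ∈ J} => z j.1)
      : MvPolynomial {j // j ∈ J} K →ₐ[K] L).toRingHom (z i)).comp (cntTh (K := K) J i).toRingHom =
      MvPolynomial.eval₂Hom (algebraMap K L)
        (fun l : Fin k => if l ∈ J then z l else if l = i then z l else 0) := by
    apply MvPolynomial.ringHom_ext
    · intro r
      simp [cntTh]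
    · intro l
      by_cases hl : l ∈ J
      · simp [cntTh, hl]
      · by_cases hi : l = i
        · subst hi
          simp [cntTh, hl]
        · simp [cntTh, hl, hi]
  have h2 := congrArg (fun f : MvPolynomial (Fin k) K →+* L => f h) h1
  refine h2.trans ?_
  refine MvPolynomial.eval₂Hom_congr' rfl ?_ rfl
  intro l hl _
  have h3 := hv hl
  rw [Finset.mem_insert] at h3
  rcases h3 with h3 | h3
  · subst h3
    by_cases h4 : l ∈ J <;> simp
  · simp [h3]

end key

theorem cnt_main {k : ℕ} {K : Type} [Field K] [Algebra K ℂ] (I : Ideal (MvPolynomial (Fin k) K))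
    (J : Finset (Fin k))
    (hI : ∀ i : Fin k, i ∉ J → ∃ h ∈ I, h ≠ 0 ∧ h.vars ⊆ insert i J)
    (w : Setoid (Fin k) → ℕ) (ζ : {j // j ∈ J} → ℂ)
    (hζ : ∀ h : MvPolynomial {j // j ∈ J} K, h ≠ 0 → MvPolynomial.aeval ζ h ≠ 0) :
    {z : Fin k → ℂ | (∀ F ∈ I, MvPolynomial.aeval z F = 0) ∧ ∀ j, z j.1 = ζ j}.Finite ∧
    ∑ᶠ z ∈ {z : Fin k → ℂ | (∀ F ∈ I, MvPolynomial.aeval z F = 0) ∧ ∀ j, z j.1 = ζ j},
        w (Setoid.ker z) =
    ∑ᶠ z ∈ {z : Fin k → AlgebraicClosure (FractionRing (MvPolynomial {j // j ∈ J} K)) |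
        (∀ F ∈ I, MvPolynomial.aeval z F = 0) ∧ ∀ j : {j // j ∈ J}, z j.1 =
          algebraMap (MvPolynomial {j // j ∈ J} K) _ (MvPolynomial.X j)},
        w (Setoid.ker z) := by
  classical
  have hinj : Function.Injective (MvPolynomial.aeval (R := K) ζ) := by
    rw [injective_iff_map_eq_zero]
    intro a ha
    by_contra h
    exact hζ a h ha
  let A := MvPolynomial {j // j ∈ J} K
  let F := FractionRing A
  let φ : F →ₐ[K] ℂ := IsFractionRing.liftAlgHom (K := F) (g := MvPolynomial.aeval (R := K) ζ) hinj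
  have hφA : ∀ a : A, φ (algebraMap A F a) = MvPolynomial.aeval ζ a := fun a =>
    IsFractionRing.lift_algebraMap hinj a
  letI : Algebra F ℂ := φ.toRingHom.toAlgebra
  let σ : AlgebraicClosure F →ₐ[F] ℂ := IsAlgClosed.lift
  have hσF : ∀ x : F, σ (algebraMap F _ x) = φ x := fun x => σ.commutes x
  have hσA : ∀ a : A, σ (algebraMap A _ a) = MvPolynomial.aeval ζ a := by
    intro a
    rw [IsScalarTower.algebraMap_apply A F (AlgebraicClosure F), hσF, hφA]
  have hσK : (σ.toRingHom).comp (algebraMap K (AlgebraicClosure F)) = algebraMap K ℂ := by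
    ext r
    change σ (algebraMap K (AlgebraicClosure F) r) = _
    rw [IsScalarTower.algebraMap_apply K F (AlgebraicClosure F), hσF]
    exact φ.commutes r
  have hσae : ∀ (z : Fin k → AlgebraicClosure F) (P : MvPolynomial (Fin k) K),
      σ (MvPolynomial.aeval z P) = MvPolynomial.aeval (fun i => σ (z i)) P := by
    intro z P
    have := MvPolynomial.map_aeval z σ.toRingHom P
    rw [hσK] at this
    exact this
  have hσi : Function.Injective σ := σ.toRingHom.injective
  -- the polynomials of the coordinates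
  have hroot : ∀ i : Fin k, ∃ S : Set ℂ, S.Finite ∧ S ⊆ Set.range σ ∧
      ∀ z : Fin k → ℂ, (∀ F ∈ I, MvPolynomial.aeval z F = 0) → (∀ j, z j.1 = ζ j) → z i ∈ S := by
    intro i
    by_cases hi : i ∈ J
    · refine ⟨{ζ ⟨i, hi⟩}, Set.finite_singleton _, ?_, ?_⟩
      · rintro x rfl
        exact ⟨algebraMap A _ (MvPolynomial.X ⟨i, hi⟩), by rw [hσA, MvPolynomial.aeval_X]⟩
      · intro z _ h2
        exact h2 ⟨i, hi⟩
    · obtain ⟨h, hhI, h0, hv⟩ := hI i hi
      let p : F[X] := (cntTh J i h).map (algebraMap A F)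
      have hp : p ≠ 0 := by
        intro h1
        exact cntTh_ne J i h hv h0
          ((Polynomial.map_eq_zero_iff (IsFractionRing.injective A F)).1 h1)
      let q : (AlgebraicClosure F)[X] := p.map (algebraMap F _)
      have hq : q ≠ 0 := (Polynomial.map_ne_zero_iff (algebraMap F (AlgebraicClosure F)).injective).2 hp
      refine ⟨{x | x ∈ (q.map σ.toRingHom).roots}, ?_, ?_, ?_⟩
      · exact Multiset.finite_toSet _
      · intro x hx
        have hx' : x ∈ (q.map σ.toRingHom).roots := hx
        rw [(IsAlgClosed.splits q).roots_map σ.toRingHom, Multiset.mem_map] at hx'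
        obtain ⟨y, _, hy⟩ := hx'
        exact ⟨y, hy⟩
      · intro z h1 h2
        change z i ∈ (q.map σ.toRingHom).roots
        rw [Polynomial.mem_roots ((Polynomial.map_ne_zero_iff hσi).2 hq), Polynomial.IsRoot.def]
        have h3 := cntTh_eval J i h hv z
        rw [h1 h hhI] at h3
        have h4 : (fun j : {j // j ∈ J} => z j.1) = ζ := funext h2
        rw [h4] at h3
        have h5 : q.map σ.toRingHom = (cntTh J i h).map (MvPolynomial.aeval (R := K) ζ
            : MvPolynomial {j // j ∈ J} K →ₐ[K] ℂ).toRingHom := by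
          change ((((cntTh J i h).map (algebraMap A F)).map (algebraMap F (AlgebraicClosure F))).map
            σ.toRingHom) = _
          rw [Polynomial.map_map, Polynomial.map_map]
          congr 1
          refine RingHom.ext fun a => ?_
          change σ (algebraMap F _ (algebraMap A F a)) = _
          rw [hσF, hφA]
          rfl
        rw [h5, Polynomial.eval_map]
        exact h3
  choose S hS1 hS2 hS3 using hroot
  constructor
  · refine (Set.Finite.pi hS1).subset ?_
    rintro z ⟨h1, h2⟩ i _
    exact hS3 i z h1 h2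
  · symm
    refine finsum_mem_eq_of_bijOn (fun z i => σ (z i)) ⟨?_, ?_, ?_⟩ ?_
    · rintro z ⟨h1, h2⟩
      refine ⟨fun P hP => ?_, fun j => ?_⟩
      · rw [← hσae, h1 P hP, map_zero]
      · change σ (z j.1) = ζ j
        rw [h2 j, hσA, MvPolynomial.aeval_X]
    · intro z _ z' _ h
      funext i
      exact hσi (congrFun h i)
    · rintro z ⟨h1, h2⟩
      have h3 : ∀ i, ∃ y, σ y = z i := fun i => hS2 i (hS3 i z h1 h2)
      choose y hy using h3
      have hyz : (fun i => σ (y i)) = z := funext hy
      refine ⟨y, ⟨fun P hP => ?_, fun j => ?_⟩, hyz⟩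
      · apply hσi
        rw [hσae, hyz, h1 P hP, map_zero]
      · apply hσi
        rw [hy, h2 j, hσA, MvPolynomial.aeval_X]
    · intro z _
      congr 1
      ext a b
      exact hσi.eq_iff.symm

theorem pf_CNT : T_CNT := by
  intro k K I J hI w
  exact ⟨_, fun ζ hζ => cnt_main I J hI w ζ hζ⟩

end Pool.Agent.H1.UDB
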