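import Pool.Agent.H83.UE.Targets3
import Pool.Agent.H70.UDA.CS

/-!
# CSG: the Cauchy-Schwarz inequality on a region (board udb_modules)
-/

set_option autoImplicit false

open Polynomial MeasureTheory Filter Topology Set
open scoped ComplexConjugate ComplexOrder ENNReal
open Pool.Agent.H83.UE

namespace Pool.Agent.H1.UDB

theorem pf_CSG : T_CSG := by
  classical
  intro k m S I J A B Ω hA hB hΩ
  -- the two factors
  set f : Idx k m → Idx k m → (Fin k → ℂ) → ℝ≥0∞ := fun X Y z =>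
    (∏ l ∈ X.1 \ Y.1, A l (z l)) * (∏ l ∈ X.1 ∩ Y.1, A l (z l)) ^ (1 / 2 : ℝ) *
      ENNReal.ofReal (S.h z X X).re ^ (1 / 2 : ℝ) with hf
  have hprodm : ∀ X : Finset (Fin k), Measurable fun z : Fin k → ℂ => ∏ l ∈ X, A l (z l) := by
    intro X
    exact Finset.measurable_prod _ fun l _ => (hA l).comp (measurable_pi_apply l)
  have hfm : ∀ X Y, Measurable (f X Y) := by
    intro X Y
    have ha : Measurable fun z => ENNReal.ofReal (S.h z X X).re :=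
      (Complex.measurable_re.comp (S.meas X X)).ennreal_ofReal
    exact ((hprodm _).mul ((hprodm _).pow_const _)).mul (ha.pow_const _)
  have hf2 : ∀ X Y : Idx k m, ∫⁻ z in Ω, f X Y z ^ (2 : ℝ) ∂S.σ =
      ∫⁻ z in Ω, ((∏ l ∈ X.1 ∩ Y.1, A l (z l)) * ∏ l ∈ X.1 \ Y.1, A l (z l) ^ 2) *
        ENNReal.ofReal (S.h z X X).re ∂S.σ := by
    intro X Y
    refine lintegral_congr fun z => ?_
    simp only [hf]
    rw [ENNReal.mul_rpow_of_nonneg _ _ (by norm_num), ENNReal.mul_rpow_of_nonneg _ _ (by norm_num),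
      ← ENNReal.rpow_mul, ← ENNReal.rpow_mul, Finset.prod_pow]
    norm_num
    ring
  -- pointwise bound
  have hpt : ∀ z, (∏ l, A l (z l)) * ‖S.h z I J‖ₑ ≤
      (∏ l ∈ (I.1 ∪ J.1)ᶜ, B l) * (f I J z * f J I z) := by
    intro z
    have hs1 : ∏ l, A l (z l) = (∏ l ∈ (I.1 ∪ J.1)ᶜ, A l (z l)) *
        ((∏ l ∈ I.1 \ J.1, A l (z l)) * (∏ l ∈ J.1 \ I.1, A l (z l)) *
          ∏ l ∈ I.1 ∩ J.1, A l (z l)) := by
      rw [← Finset.prod_compl_mul_prod (I.1 ∪ J.1)]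
      congr 1
      have hu : I.1 ∪ J.1 = (I.1 \ J.1) ∪ J.1 := (Finset.sdiff_union_self_eq_union).symm
      rw [hu, Finset.prod_union Finset.sdiff_disjoint, mul_assoc]
      congr 1
      rw [← Finset.prod_sdiff (Finset.inter_subset_left (s₁ := J.1) (s₂ := I.1)),
        Finset.sdiff_inter_self_left, Finset.inter_comm]
    have hs2 : (∏ l ∈ (I.1 ∪ J.1)ᶜ, A l (z l)) ≤ ∏ l ∈ (I.1 ∪ J.1)ᶜ, B l := by
      refine Finset.prod_le_prod' fun l hl => ?_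
      rw [Finset.mem_compl, Finset.mem_union, not_or] at hl
      exact hB l (z l) hl.1 hl.2
    have hs3 : (∏ l ∈ I.1 ∩ J.1, A l (z l)) = (∏ l ∈ I.1 ∩ J.1, A l (z l)) ^ (1 / 2 : ℝ) *
        (∏ l ∈ J.1 ∩ I.1, A l (z l)) ^ (1 / 2 : ℝ) := by
      rw [Finset.inter_comm J.1 I.1, ← ENNReal.rpow_add_of_nonneg _ _ (by norm_num) (by norm_num)]
      norm_num
    have hs4 := Pool.Agent.H70.UDA.psd_entry (S.psd z) I J
    rw [hs1]
    calc (∏ l ∈ (I.1 ∪ J.1)ᶜ, A l (z l)) *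
        ((∏ l ∈ I.1 \ J.1, A l (z l)) * (∏ l ∈ J.1 \ I.1, A l (z l)) *
          ∏ l ∈ I.1 ∩ J.1, A l (z l)) * ‖S.h z I J‖ₑ
        ≤ (∏ l ∈ (I.1 ∪ J.1)ᶜ, B l) *
        ((∏ l ∈ I.1 \ J.1, A l (z l)) * (∏ l ∈ J.1 \ I.1, A l (z l)) *
          ∏ l ∈ I.1 ∩ J.1, A l (z l)) * (ENNReal.ofReal (S.h z I I).re ^ (1 / 2 : ℝ) *
            ENNReal.ofReal (S.h z J J).re ^ (1 / 2 : ℝ)) := by gcongr
      _ = (∏ l ∈ (I.1 ∪ J.1)ᶜ, B l) * (f I J z * f J I z) := by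
          rw [hs3]
          simp only [hf]
          ring
  calc ∫⁻ z in Ω, (∏ l, A l (z l)) * ‖S.h z I J‖ₑ ∂S.σ
      ≤ ∫⁻ z in Ω, (∏ l ∈ (I.1 ∪ J.1)ᶜ, B l) * (f I J z * f J I z) ∂S.σ := lintegral_mono hpt
    _ = (∏ l ∈ (I.1 ∪ J.1)ᶜ, B l) * ∫⁻ z in Ω, (f I J * f J I) z ∂S.σ := by
        exact lintegral_const_mul _ ((hfm I J).mul (hfm J I))
    _ ≤ (∏ l ∈ (I.1 ∪ J.1)ᶜ, B l) * ((∫⁻ z in Ω, f I J z ^ (2 : ℝ) ∂S.σ) ^ (1 / 2 : ℝ) *
          (∫⁻ z in Ω, f J I z ^ (2 : ℝ) ∂S.σ) ^ (1 / 2 : ℝ)) := by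
        gcongr
        exact ENNReal.lintegral_mul_le_Lp_mul_Lq (S.σ.restrict Ω) Real.HolderConjugate.two_two
          (hfm I J).aemeasurable (hfm J I).aemeasurable
    _ = _ := by
        rw [hf2, hf2, Finset.inter_comm J.1 I.1, mul_assoc]

end Pool.Agent.H1.UDB
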