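import Pool.Agent.H83.UE.Targets3
import Pool.Agent.H10.UDA.LJ1

/-!
# FCT: lower bound for a polynomial (board udb_modules)
-/

set_option autoImplicit false

open Polynomial MeasureTheory Filter Topology Set
open Pool.Agent.H83.UE

namespace Pool.Agent.H1.UDB

theorem hev_one {D : ℕ} {q : ℂ[X]} (hq : q.natDegree ≤ D) (y : ℂ) :
    hev D q (y, 1) = q.eval y := by
  unfold hev
  rw [Polynomial.eval_eq_sum_range' (Nat.lt_succ_of_le hq)]
  simp

theorem norm_y1 (y : ℂ) : ‖((y, 1) : ℂ × ℂ)‖ = max 1 ‖y‖ := by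
  rw [Prod.norm_def, max_comm]
  simp

/-- The product of the linear factors. -/
noncomputable def lp {ι : Type} (s : Finset ι) (ζ : ι → ℂ × ℂ) : ℂ[X] :=
  ∏ i ∈ s, (C (ζ i).2 * X - C (ζ i).1)

theorem lp_coeff {ι : Type} [DecidableEq ι] (ζ : ι → ℂ × ℂ) (hζ : ∀ i, ‖ζ i‖ = 1)
    (s : Finset ι) : ∀ j, ‖(lp s ζ).coeff j‖ ≤ 2 ^ s.card := by
  induction s using Finset.induction_on with
  | empty =>
    intro j
    simp only [lp, Finset.prod_empty, Finset.card_empty, pow_zero, coeff_one]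
    split_ifs <;> simp
  | insert a s ha ih =>
    intro j
    have e : lp (insert a s) ζ = C (ζ a).2 * (X * lp s ζ) - C (ζ a).1 * lp s ζ := by
      unfold lp
      rw [Finset.prod_insert ha]
      ring
    have h1 : ‖(ζ a).1‖ ≤ 1 := by
      have := norm_fst_le (ζ a)
      rwa [hζ a] at this
    have h2 : ‖(ζ a).2‖ ≤ 1 := by
      have := norm_snd_le (ζ a)
      rwa [hζ a] at this
    have hX : ‖(X * lp s ζ).coeff j‖ ≤ 2 ^ s.card := by
      rcases j with _ | j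
      · simp
      · rw [coeff_X_mul]
        exact ih j
    rw [e, coeff_sub, coeff_C_mul, coeff_C_mul, Finset.card_insert_of_notMem ha, pow_succ]
    have a1 : ‖(ζ a).2 * (X * lp s ζ).coeff j‖ ≤ 2 ^ s.card := by
      rw [norm_mul]
      calc ‖(ζ a).2‖ * ‖(X * lp s ζ).coeff j‖ ≤ 1 * 2 ^ s.card :=
            mul_le_mul h2 hX (norm_nonneg _) zero_le_one
        _ = 2 ^ s.card := one_mul _
    have a2 : ‖(ζ a).1 * (lp s ζ).coeff j‖ ≤ 2 ^ s.card := by
      rw [norm_mul]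
      calc ‖(ζ a).1‖ * ‖(lp s ζ).coeff j‖ ≤ 1 * 2 ^ s.card :=
            mul_le_mul h1 (ih j) (norm_nonneg _) zero_le_one
        _ = 2 ^ s.card := one_mul _
    calc ‖(ζ a).2 * (X * lp s ζ).coeff j - (ζ a).1 * (lp s ζ).coeff j‖
        ≤ ‖(ζ a).2 * (X * lp s ζ).coeff j‖ + ‖(ζ a).1 * (lp s ζ).coeff j‖ := norm_sub_le _ _
      _ ≤ 2 ^ s.card * 2 := by linarith

theorem pf_FCT (h1 : T_BF) : T_FCT := by
  intro D
  refine ⟨1 / 2 ^ D, by positivity, ?_⟩
  intro q hq s hs hj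
  obtain ⟨j, hj⟩ := hj
  have hq0 : q ≠ 0 := by
    intro h
    rw [h, coeff_zero, norm_zero] at hj
    linarith
  obtain ⟨c, hc, ζ, hζ, hev'⟩ := h1 D q hq0 hq
  refine ⟨ζ, hζ, ?_⟩
  have heval : ∀ y : ℂ, q.eval y = c * ∏ i, wd (y, 1) (ζ i) := by
    intro y
    rw [← hev_one hq y, hev']
  have hqe : q = C c * lp Finset.univ ζ := by
    apply Polynomial.funext
    intro y
    rw [heval, eval_mul, eval_C, lp, eval_prod]
    congr 1
    refine Finset.prod_congr rfl fun i _ => ?_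
    simp only [wd, eval_sub, eval_mul, eval_C, eval_X]
    ring
  have hcs : s ≤ ‖c‖ * 2 ^ D := by
    calc s ≤ ‖q.coeff j‖ := hj
      _ = ‖c‖ * ‖(lp Finset.univ ζ).coeff j‖ := by
          conv_lhs => rw [hqe]
          rw [coeff_C_mul, norm_mul]
      _ ≤ ‖c‖ * 2 ^ D := by
          refine mul_le_mul_of_nonneg_left ?_ (norm_nonneg _)
          have := lp_coeff ζ hζ Finset.univ j
          rwa [Finset.card_univ, Fintype.card_fin] at this
  intro y
  have hcd : ∀ i, ‖wd (y, 1) (ζ i)‖ = max 1 ‖y‖ * cd (y, 1) (ζ i) := by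
    intro i
    have hp : (0 : ℝ) < max 1 ‖y‖ := lt_of_lt_of_le one_pos (le_max_left _ _)
    unfold cd
    rw [norm_y1, hζ i, mul_one]
    field_simp
  have hprod : ‖q.eval y‖ = ‖c‖ * ((max 1 ‖y‖) ^ D * ∏ i, cd (y, 1) (ζ i)) := by
    rw [heval, norm_mul, norm_prod]
    congr 1
    rw [Finset.prod_congr rfl fun i _ => hcd i, Finset.prod_mul_distrib]
    simp
  have hnn : 0 ≤ (max 1 ‖y‖) ^ D * ∏ i, cd (y, 1) (ζ i) := by
    refine mul_nonneg (pow_nonneg (le_trans zero_le_one (le_max_left _ _)) _)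
      (Finset.prod_nonneg fun i _ => ?_)
    unfold cd
    positivity
  rw [hprod, mul_assoc]
  refine mul_le_mul_of_nonneg_right ?_ hnn
  rw [one_div, inv_mul_le_iff₀ (by positivity), mul_comm]
  exact hcs

end Pool.Agent.H1.UDB
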