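import Pool.Agent.H83.UE.Targets3
import Pool.Agent.H10.UDA.LJ1

/-!
Row LE2 of the board udb_modules: the fibres away from the exceptional points are spread.
-/

set_option autoImplicit false

open Polynomial MeasureTheory Filter Topology Set
open Pool.Agent.H83.UE

namespace Pool.Agent.H1.UDB

open Pool.Agent.H10.UDA

theorem omh_smul (E : Finset (OnePoint ℂ)) {a : ℂ} (ha : a ≠ 0) (z : ℂ × ℂ) :
    omh E (a • z) = omh E z := by
  unfold omh
  refine Finset.prod_congr rfl fun e _ => ?_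
  have := cd_smul ha one_ne_zero z (vec e)
  rwa [one_smul] at this

theorem pf_LE2 : T_LE2 := by
  intro D A B hD _ _ _ E hE t ht
  obtain ⟨H, hH⟩ : ∃ H : ℂ × ℂ → ℂ × ℂ, H = fun w => (hev D A w, hev D B w) := ⟨_, rfl⟩
  have hE' : ∀ z x : ℂ × ℂ, z ≠ 0 → x ≠ 0 → omh E z ≠ 0 → ∀ c : ℂ,
      ¬ ∀ w : ℂ × ℂ, wd (H w) z = c * wd w x ^ D := by
    rw [hH]
    exact hE
  have hgoal : ∃ s : ℝ, 0 < s ∧ ∀ (z : ℂ × ℂ) (x : Fin D → ℂ × ℂ) (b : ℂ), ‖z‖ = 1 →
      (∀ i, ‖x i‖ = 1) → t ≤ omh E z → (∀ w, wd (H w) z = b * ∏ i, wd w (x i)) →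
      ∃ i j, s ≤ ‖wd (x i) (x j)‖ := by
    by_contra hcon
    push Not at hcon
    have h := fun n : ℕ => hcon (1 / ((n : ℝ) + 1)) (by positivity)
    choose z x c hz hx hom hf hs using h
    have hK : IsCompact (Metric.sphere (0 : ℂ × ℂ) 1 ×ˢ
        (Set.pi univ fun _ : Fin D => Metric.sphere (0 : ℂ × ℂ) 1)) :=
      (isCompact_sphere _ _).prod (isCompact_univ_pi fun _ => isCompact_sphere _ _)
    obtain ⟨⟨z0, x0⟩, hmem, φ, hφ, hlim⟩ := hK.tendsto_subseq (x := fun n => (z n, x n))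
      (fun n => ⟨by simpa using hz n, fun i _ => by simpa using hx n i⟩)
    have hz1 : ‖z0‖ = 1 := by simpa using hmem.1
    have hz0 : z0 ≠ 0 := by
      intro h0
      rw [h0, norm_zero] at hz1
      exact zero_ne_one hz1
    have hx0 : ∀ i, x0 i ≠ 0 := by
      intro i h0
      have : x0 i ∈ Metric.sphere (0 : ℂ × ℂ) 1 := hmem.2 i (mem_univ i)
      rw [h0] at this
      simp at this
    have lz : Tendsto (fun n => z (φ n)) atTop (𝓝 z0) :=
      (continuous_fst.tendsto ((z0, x0) : (ℂ × ℂ) × (Fin D → ℂ × ℂ))).comp hlim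
    have lx : ∀ i, Tendsto (fun n => x (φ n) i) atTop (𝓝 (x0 i)) := fun i =>
      (((continuous_apply i).comp continuous_snd).tendsto
        ((z0, x0) : (ℂ × ℂ) × (Fin D → ℂ × ℂ))).comp hlim
    have lwx : ∀ (v : ℂ × ℂ) (i : Fin D),
        Tendsto (fun n => wd v (x (φ n) i)) atTop (𝓝 (wd v (x0 i))) := fun v i =>
      wd_tendsto tendsto_const_nhds (lx i)
    have lP : ∀ v : ℂ × ℂ,
        Tendsto (fun n => ∏ i, wd v (x (φ n) i)) atTop (𝓝 (∏ i, wd v (x0 i))) := fun v =>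
      tendsto_finsetProd _ fun i _ => lwx v i
    -- the limit of the weights
    have hom0 : t ≤ omh E z0 := by
      have e1 : ∀ v : ℂ × ℂ, ‖v‖ = 1 → omh E v = ∏ e ∈ E, ‖wd v (vec e)‖ / ‖vec e‖ := by
        intro v hv
        unfold omh cd
        exact Finset.prod_congr rfl fun e _ => by rw [hv, one_mul]
      have l1 : Tendsto (fun n => ∏ e ∈ E, ‖wd (z (φ n)) (vec e)‖ / ‖vec e‖) atTop
          (𝓝 (∏ e ∈ E, ‖wd z0 (vec e)‖ / ‖vec e‖)) :=
        tendsto_finsetProd _ fun e _ => (wd_tendsto lz tendsto_const_nhds).norm.div_const _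
      rw [e1 z0 hz1]
      refine ge_of_tendsto' l1 fun n => ?_
      rw [← e1 _ (hz (φ n))]
      exact hom (φ n)
    -- all the points are parallel
    obtain ⟨i0, -⟩ : ∃ i0 : Fin D, i0 = ⟨0, hD⟩ := ⟨_, rfl⟩
    have hwx : ∀ i, wd (x0 i0) (x0 i) = 0 := by
      intro i
      have l1 : Tendsto (fun n => wd (x (φ n) i0) (x (φ n) i)) atTop
          (𝓝 (wd (x0 i0) (x0 i))) := wd_tendsto (lx i0) (lx i)
      have l3 : Tendsto (fun n : ℕ => 1 / ((φ n : ℝ) + 1)) atTop (𝓝 0) :=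
        tendsto_one_div_add_atTop_nhds_zero_nat.comp hφ.tendsto_atTop
      have l2 : Tendsto (fun n => wd (x (φ n) i0) (x (φ n) i)) atTop (𝓝 0) :=
        squeeze_zero_norm (fun n => (hs (φ n) i0 i).le) l3
      exact tendsto_nhds_unique l1 l2
    choose r hr using fun i => par (hx0 i0) (hwx i)
    have hr0 : ∀ i, r i ≠ 0 := by
      intro i h0
      refine hx0 i ?_
      rw [hr i, h0, zero_smul]
    have hprod : ∀ v : ℂ × ℂ, ∏ i, wd v (x0 i) = (∏ i, r i) * wd v (x0 i0) ^ D := by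
      intro v
      have : ∀ i, wd v (x0 i) = r i * wd v (x0 i0) := by
        intro i
        conv_lhs => rw [hr i]
        rw [wd_smul]
      rw [Finset.prod_congr rfl fun i _ => this i]
      rw [Finset.prod_mul_distrib, Finset.prod_const, Finset.card_univ, Fintype.card_fin]
    obtain ⟨v1, hv1⟩ := exv (hx0 i0)
    have hP1 : ∏ i, wd v1 (x0 i) ≠ 0 := by
      rw [hprod]
      exact mul_ne_zero (Finset.prod_ne_zero_iff.2 fun i _ => hr0 i) (pow_ne_zero _ hv1)
    have lH : ∀ v : ℂ × ℂ, Tendsto (fun n => wd (H v) (z (φ n))) atTop (𝓝 (wd (H v) z0)) :=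
      fun v => wd_tendsto tendsto_const_nhds lz
    have lc : Tendsto (fun n => c (φ n)) atTop (𝓝 (wd (H v1) z0 / ∏ i, wd v1 (x0 i))) := by
      have l1 := (lH v1).div (lP v1) hP1
      refine l1.congr' ?_
      filter_upwards [(lP v1).eventually_ne hP1] with n hn
      rw [Pi.div_apply, hf, mul_div_assoc, div_self hn, mul_one]
    refine hE' z0 (x0 i0) hz0 (hx0 i0) (by linarith : omh E z0 > 0).ne'
      (wd (H v1) z0 / (∏ i, wd v1 (x0 i)) * ∏ i, r i) fun v => ?_
    have l1 := lc.mul (lP v)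
    have l2 : Tendsto (fun n => c (φ n) * ∏ i, wd v (x (φ n) i)) atTop (𝓝 (wd (H v) z0)) := by
      refine (lH v).congr fun n => ?_
      exact hf (φ n) v
    rw [tendsto_nhds_unique l2 l1, hprod v]
    ring
  obtain ⟨s, hs, hsp⟩ := hgoal
  refine ⟨s, hs, fun z hz htz b x hx hf => ?_⟩
  obtain ⟨a, ha, hz1⟩ := unit_ex hz
  choose α hα hα1 using fun i => unit_ex (hx i)
  obtain ⟨i, j, hij⟩ := hsp (a • z) (fun i => α i • x i) (a * b * ∏ i, (α i)⁻¹) hz1 hα1
    (by rw [omh_smul E ha]; exact htz) (fun w => by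
      rw [wd_smul]
      have h1 : wd (H w) z = b * ∏ i, wd w (x i) := by
        rw [hH]
        exact hf w
      rw [h1]
      have h2 : ∏ i, wd w (α i • x i) = (∏ i, α i) * ∏ i, wd w (x i) := by
        rw [← Finset.prod_mul_distrib]
        exact Finset.prod_congr rfl fun i _ => wd_smul _ _ _
      have h3 : (∏ i, (α i)⁻¹) * ∏ i, α i = 1 := by
        rw [← Finset.prod_mul_distrib]
        exact Finset.prod_eq_one fun i _ => inv_mul_cancel₀ (hα i)
      rw [h2]
      calc a * (b * ∏ i, wd w (x i)) = a * b * 1 * ∏ i, wd w (x i) := by ring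
        _ = a * b * ((∏ i, (α i)⁻¹) * ∏ i, α i) * ∏ i, wd w (x i) := by rw [h3]
        _ = _ := by ring)
  refine ⟨i, j, ?_⟩
  have h4 : cd (x i) (x j) = ‖wd (α i • x i) (α j • x j)‖ := by
    rw [← cd_smul (hα i) (hα j) (x i) (x j)]
    unfold cd
    rw [hα1, hα1, mul_one, div_one]
  rw [h4]
  exact hij

end Pool.Agent.H1.UDB
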